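import Pool.Agent.HopfCov.Cov

/-!
# The finite coverings of smooth structures with standard universal covering

Let `M` be a smooth 4-manifold homeomorphic to `S¹ × S³` or to the twisted product whose universal
covering is diffeomorphic to `ℝ⁴ ∖ 0 = S³ × ℝ`, and let `M_m` be its covering with `m` sheets (`m`
odd if `M` is not orientable). There are `d` and `m₀` such that `M_m` is standard only if `d ∣ m`,
and if `m ≥ m₀` also if `d ∣ m`; if `M_a` and `M_b` are diffeomorphic then `d ∣ a² - b²`, and
`d ∣ a - b` if they are so by a map which preserves orientations or if `M` is not orientable; if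
`a, b ≥ m₀` the converse of the last statement holds.
-/

set_option autoImplicit false

open scoped ContDiff Topology Manifold
open Set Filter Metric

namespace Pool.Agent.Results.MP_6db3ee_gt.FiniteCoverings

open Pool.Agent.HopfCov Pool.Agent.HopfCov.Smooth

theorem result (M : Mfd4) (hM : HomeoS1S3 M ∨ HomeoTwisted M) (p : Punctured → M)
    (hp : IsCoveringMap p) (hp' : LocalDiffeo p) :
    ∃ d m₀ : ℕ,
      (∀ (m : ℕ) (N : Mfd4) (q : N → M), 0 < m → OrientedBy p ∨ Odd m → Closed N → Cover m q →
        (Standard p N → d ∣ m) ∧ (m₀ ≤ m → d ∣ m → Standard p N)) ∧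
      ∀ (a b : ℕ) (N N' : Mfd4) (q : N → M) (q' : N' → M), 0 < a → 0 < b →
        OrientedBy p ∨ Odd a ∧ Odd b → Closed N → Closed N' → Cover a q → Cover b q' →
        (Diffeomorphic N N' → (d : ℤ) ∣ (a : ℤ) ^ 2 - (b : ℤ) ^ 2) ∧
        (∀ F : N → N', IsDiffeo F → ¬ OrientedBy p ∨ PreservesOver p q q' F →
          (d : ℤ) ∣ (a : ℤ) - b) ∧
        (m₀ ≤ a → m₀ ≤ b → (d : ℤ) ∣ (a : ℤ) - b →
          ∃ F : N → N', IsDiffeo F ∧ (OrientedBy p → PreservesOver p q q' F)) :=
  covers_all M hM p hp hp'

end Pool.Agent.Results.MP_6db3ee_gt.FiniteCoverings
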