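import Pool.Agent.HopfCov.Bridge

/-!
# Large finite coverings are standard off one point

Let `M` be a smooth 4-manifold homeomorphic to `S¹ × S³` or to the twisted product, with universal
covering diffeomorphic to `ℝ⁴ ∖ 0 = S³ × ℝ`. Then for all large `m` every connected covering of
`M` with `m` sheets is homeomorphic to the standard `S¹ × S³` or twisted product, by
a homeomorphism which is a local diffeomorphism at all points but one.
-/

set_option autoImplicit false

open scoped ContDiff Topology Manifold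
open Set Filter Metric

namespace Pool.Agent.Attic.MP_6db3ee_gt.OffOnePoint

open Pool.Agent.HopfCov Pool.Agent.HopfCov.Smooth

theorem result (M : Mfd4) (hM : HomeoS1S3 M ∨ HomeoTwisted M) (p : Punctured → M)
    (hp : IsCoveringMap p) (hp' : LocalDiffeo p) :
    ∃ m₀ : ℕ, ∀ (m : ℕ) (N : Mfd4) (q : N → M), m₀ ≤ m → ConnectedSpace N → Cover m q →
      (OrientedBy p ∨ Even m → OffPoint N) ∧
      (¬ OrientedBy p → Odd m → ∀ T : Mfd4, IsTwisted T → OffPointTo N T) := by
  obtain ⟨h1, h2, g, h3⟩ := hM.elim (fun h => orbit_of_homeo h hp hp')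
    (fun h => orbit_of_twisted h hp hp')
  obtain ⟨m₀, h4⟩ := covers_off_point specMfderiv specSign specModelMap h3
  refine ⟨m₀, fun m N q hm hN hq => ?_⟩
  obtain ⟨e1, e2⟩ := h4 m hm N q hq.old
  refine ⟨e1, fun ho hodd T hT => ?_⟩
  obtain ⟨L, hL, ρ, hρ, hT1, pT, hpT⟩ := hT.data
  exact e2 ho hodd L hL ρ hρ T pT hpT

end Pool.Agent.Attic.MP_6db3ee_gt.OffOnePoint
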