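import Pool.Agent.HopfCov.SelfCov

/-!
# Self-covering smooth structures on `S¹ × S³` and on the twisted product

Let `M` be a smooth 4-manifold homeomorphic to `S¹ × S³` or to the twisted product whose universal
covering is diffeomorphic to `ℝ⁴ ∖ 0 = S³ × ℝ`, and suppose that `M` has a smooth self-covering
with at least two sheets. Then there are `d ≥ 1` and `m₀` such that every self-covering of `M` with
`a` sheets satisfies `a² ≡ 1 (mod d)`, even `a ≡ 1 (mod d)` if it preserves the orientation or `M`
is not orientable; for `m ≥ m₀` the covering of `M` with `m` sheets is diffeomorphic to `M` if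
`m ≡ 1 (mod d)` (and `m` is odd if `M` is not orientable), and to `S¹ × S³` if `m` is divisible by
`2 d` (by `d` if `M` is orientable); and if `d = 1` then `M` itself is standard. For instance a
smooth structure on `S¹ × S³` with standard universal covering is standard if it has an orientation
preserving self-covering with two sheets, or self-coverings with two and with three sheets.
-/

set_option autoImplicit false

open scoped ContDiff Topology Manifold
open Set Filter Metric

namespace Pool.Agent.Attic.MP_6db3ee_gt.SelfCovering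

open Pool.Agent.HopfCov Pool.Agent.HopfCov.Smooth

theorem result (M : Mfd4) (hM : HomeoS1S3 M ∨ HomeoTwisted M) (p : Punctured → M)
    (hp : IsCoveringMap p) (hp' : LocalDiffeo p) (a₀ : ℕ) (q₀ : M → M) (ha₀ : 2 ≤ a₀)
    (hq₀ : Cover a₀ q₀) :
    ∃ d m₀ : ℕ, 0 < d ∧
      (∀ (a : ℕ) (q : M → M), 0 < a → Cover a q →
        d ∣ a ^ 2 - 1 ∧ (Preserves p q ∨ ¬ OrientedBy p → d ∣ a - 1)) ∧
      (∀ (m : ℕ) (N : Mfd4) (q : N → M), m₀ ≤ m → Closed N → Cover m q →
        (d ∣ m - 1 → OrientedBy p ∨ Odd m → Diffeomorphic N M) ∧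
        (2 * d ∣ m ∨ OrientedBy p ∧ d ∣ m → DiffeoS1S3 N)) ∧
      (d = 1 → Standard p M) :=
  selfcov M hM p hp hp' a₀ q₀ ha₀ hq₀

end Pool.Agent.Attic.MP_6db3ee_gt.SelfCovering
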